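import Mathlib
import Pool.Agent.X110.ZJ

/-!
MP_fcf965_nt, Q1: there is `T₀` such that for all `T ≥ T₀` and all integers
`1 ≤ ℓ₁ < ℓ₂ ≤ log T / log log T` one has `M_{ℓ₁}(T) < M_{ℓ₂}(T)`, where
`M_ℓ(T) = max_{T ≤ t ≤ 2T} |ζ^{(ℓ)}(1+it)|`.
-/

set_option autoImplicit false

namespace Pool.Agent.Results.MP_fcf965_nt.ZetaDerivMonotone

open Complex Set Pool.Agent.X110.ZB

/-- `M_ℓ(T) = max_{T ≤ t ≤ 2T} |ζ^{(ℓ)}(1+it)|`. -/
noncomputable def M (l : ℕ) (T : ℝ) : ℝ :=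
  sSup ((fun t : ℝ => ‖iteratedDeriv l riemannZeta (1 + (t : ℂ) * I)‖) '' Icc T (2 * T))

lemma cont (l : ℕ) {T : ℝ} (hT : 0 < T) :
    ContinuousOn (fun t : ℝ => ‖iteratedDeriv l riemannZeta (1 + (t : ℂ) * I)‖)
      (Icc T (2 * T)) := by
  intro t ht
  have hne : (1 + t * I : ℂ) ≠ 1 := by
    apply ne_one_of_im
    simp only [add_im, one_im, mul_im, ofReal_re, I_im, ofReal_im, I_re, mul_one, mul_zero,
      add_zero, zero_add]
    rw [abs_of_pos (by linarith [ht.1])]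
    linarith [ht.1]
  have h1 : ContinuousAt (Z l) (1 + t * I : ℂ) := (Z_diffAt l hne).continuousAt
  have h2 : ContinuousAt (fun t : ℝ => (1 + t * I : ℂ)) t := by fun_prop
  have h3 : ContinuousAt (fun t : ℝ => Z l (1 + t * I : ℂ)) t :=
    ContinuousAt.comp (f := fun t : ℝ => (1 + t * I : ℂ)) (x := t) h1 h2
  exact h3.norm.continuousWithinAt

lemma le_M (l : ℕ) {T : ℝ} (hT : 0 < T) :
    ∀ t ∈ Icc T (2 * T), ‖Z l (1 + t * I)‖ ≤ M l T := by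
  intro t ht
  exact le_csSup (isCompact_Icc.image_of_continuousOn (cont l hT)).bddAbove
    (mem_image_of_mem _ ht)

/-- the value `M_ℓ(T)` is attained (it is a maximum) -/
theorem M_attained (l : ℕ) {T : ℝ} (hT : 0 < T) :
    ∃ t ∈ Icc T (2 * T), ‖iteratedDeriv l riemannZeta (1 + (t : ℂ) * I)‖ = M l T := by
  obtain ⟨t, ht, h⟩ := isCompact_Icc.exists_sSup_image_eq (nonempty_Icc.2 (by linarith : T ≤ 2 * T))
    (cont l hT)
  exact ⟨t, ht, h.symm⟩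

lemma step_all : ∃ T0 : ℝ, 1 ≤ T0 ∧ ∀ T : ℝ, T0 ≤ T → ∀ l : ℕ, 1 ≤ l →
    (l : ℝ) ≤ Real.log T / Real.log (Real.log T) → M l T < M (l + 1) T := by
  obtain ⟨l0, T1, hlarge⟩ := step_large
  have hsmall : ∀ L : ℕ, ∃ T0 : ℝ, ∀ T : ℝ, T0 ≤ T → ∀ l : ℕ, 1 ≤ l → l < L → ∀ M t0 : ℝ,
    t0 ∈ Icc T (2 * T) →
    (∀ t ∈ Icc T (2 * T), ‖Z l (1 + t * I)‖ ≤ M) → ‖Z l (1 + t0 * I)‖ = M →
    ¬ (∀ t ∈ Icc T (2 * T), ‖Z (l + 1) (1 + t * I)‖ ≤ M) := by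
    intro L
    induction L with
    | zero => exact ⟨0, fun T _ l _ h => absurd h (Nat.not_lt_zero l)⟩
    | succ L ih =>
      obtain ⟨T0, h0⟩ := ih
      rcases Nat.eq_zero_or_pos L with hL | hL
      · refine ⟨T0, fun T hT l hl1 hl2 => ?_⟩
        omega
      · obtain ⟨T0', h0'⟩ := step_small L hL
        refine ⟨max T0 T0', fun T hT l hl1 hl2 => ?_⟩
        rcases Nat.lt_succ_iff_lt_or_eq.1 hl2 with h | h
        · exact h0 T ((le_max_left _ _).trans hT) l hl1 h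
        · rw [h]
          exact h0' T ((le_max_right _ _).trans hT)
  obtain ⟨T2, hs⟩ := hsmall l0
  refine ⟨max 1 (max T1 T2), le_max_left _ _, fun T hT l hl hlT => ?_⟩
  have hT1 : 1 ≤ T := (le_max_left _ _).trans hT
  have hTa : T1 ≤ T := (le_max_left _ _).trans ((le_max_right _ _).trans hT)
  have hTb : T2 ≤ T := (le_max_right _ _).trans ((le_max_right _ _).trans hT)
  have hT0 : 0 < T := by linarith
  by_contra hcon
  push Not at hcon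
  obtain ⟨t0, ht0, hMt0⟩ := M_attained l hT0
  have h1 : ∀ t ∈ Icc T (2 * T), ‖Z (l + 1) (1 + t * I)‖ ≤ M l T :=
    fun t ht => (le_M (l + 1) hT0 t ht).trans hcon
  rcases lt_or_ge l l0 with h | h
  · exact hs T hTb l hl h (M l T) t0 ht0 (le_M l hT0) hMt0 h1
  · exact hlarge T hTa l h hlT (M l T) t0 ht0 (le_M l hT0) hMt0 h1

theorem result : ∃ T0 : ℝ, ∀ T : ℝ, T0 ≤ T → ∀ l1 l2 : ℕ, 1 ≤ l1 → l1 < l2 →
    (l2 : ℝ) ≤ Real.log T / Real.log (Real.log T) → M l1 T < M l2 T := by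
  obtain ⟨T0, _, h⟩ := step_all
  refine ⟨T0, fun T hT l1 l2 h1 h12 h2 => ?_⟩
  obtain ⟨k, rfl⟩ : ∃ k, l2 = l1 + 1 + k := ⟨l2 - (l1 + 1), by omega⟩
  clear h12
  induction k with
  | zero =>
    refine h T hT l1 h1 (le_trans ?_ h2)
    exact_mod_cast Nat.le_succ l1
  | succ k ih =>
    have h3 : ((l1 + 1 + k : ℕ) : ℝ) ≤ Real.log T / Real.log (Real.log T) := by
      refine le_trans ?_ h2
      exact_mod_cast Nat.le_succ _
    exact (ih h3).trans (h T hT (l1 + 1 + k) (by omega) h3)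

end Pool.Agent.Results.MP_fcf965_nt.ZetaDerivMonotone
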